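import Mathlib

set_option autoImplicit false

/-! An orthonormal family close to a finite dimensional space is small. -/

namespace Pool.Agent.Y316.BT

open scoped InnerProductSpace

theorem dim_bound {H : Type*} [NormedAddCommGroup H] [InnerProductSpace ℂ H] {ι κ : Type*}
    {e : ι → H} (he : Orthonormal ℂ e) (E : Finset ι) (J : Finset κ) (w : κ → H) {η : ℝ}
    (h : ∀ i ∈ E, ∃ g ∈ Submodule.span ℂ (w '' (J : Set κ)), ‖e i - g‖ ≤ η) :
    (E.card : ℝ) * (1 - η ^ 2) ≤ J.card := by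
  classical
  set W : Submodule ℂ H := Submodule.span ℂ (w '' (J : Set κ)) with hW
  have hfin : (w '' (J : Set κ)).Finite := J.finite_toSet.image w
  have hFD : FiniteDimensional ℂ W := FiniteDimensional.span_of_finite ℂ hfin
  have hrank : Module.finrank ℂ W ≤ J.card := by
    have h1 := finrank_span_finset_le_card (R := ℂ) (J.image w)
    rw [Finset.coe_image] at h1
    exact h1.trans Finset.card_image_le
  let b := stdOrthonormalBasis ℂ W
  have h1 : ∀ i ∈ E, 1 - η ^ 2 ≤ ∑ j, ‖⟪(b j : H), e i⟫_ℂ‖ ^ 2 := by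
    intro i hi
    obtain ⟨g, hg, hgn⟩ := h i hi
    set p : H := W.starProjection (e i) with hp
    have hpm : p ∈ W := W.starProjection_apply_mem (e i)
    have h2 := b.sum_sq_norm_inner_right ⟨p, hpm⟩
    have h3 : ∀ j, ⟪b j, (⟨p, hpm⟩ : W)⟫_ℂ = ⟪(b j : H), e i⟫_ℂ := by
      intro j
      have h4 : ⟪e i - p, (b j : H)⟫_ℂ = 0 := W.starProjection_inner_eq_zero (e i) _ (b j).2
      have h5 : ⟪(b j : H), e i - p⟫_ℂ = 0 := by
        rw [← inner_conj_symm, h4, map_zero]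
      rw [inner_sub_right, sub_eq_zero] at h5
      rw [h5]
      rfl
    simp_rw [h3] at h2
    rw [h2]
    have h6 : ⟪e i - p, p - g⟫_ℂ = 0 :=
      W.starProjection_inner_eq_zero (e i) _ (W.sub_mem hpm hg)
    have h7 : ‖e i - g‖ ^ 2 = ‖e i - p‖ ^ 2 + ‖p - g‖ ^ 2 := by
      have h8 : e i - g = (e i - p) + (p - g) := by abel
      rw [h8, sq, sq, sq]
      exact norm_add_sq_eq_norm_sq_add_norm_sq_of_inner_eq_zero _ _ h6
    have h9 : ⟪e i - p, p⟫_ℂ = 0 := W.starProjection_inner_eq_zero (e i) _ hpm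
    have h10 : ‖e i‖ ^ 2 = ‖e i - p‖ ^ 2 + ‖p‖ ^ 2 := by
      have h8 : e i = (e i - p) + p := by abel
      conv_lhs => rw [h8]
      rw [sq, sq, sq]
      exact norm_add_sq_eq_norm_sq_add_norm_sq_of_inner_eq_zero _ _ h9
    rw [he.1 i] at h10
    have h11 : ‖e i - g‖ ^ 2 ≤ η ^ 2 := pow_le_pow_left₀ (norm_nonneg _) hgn 2
    have h12 : ‖(⟨p, hpm⟩ : W)‖ = ‖p‖ := rfl
    rw [h12]
    nlinarith [sq_nonneg ‖p - g‖]
  calc (E.card : ℝ) * (1 - η ^ 2) = ∑ i ∈ E, (1 - η ^ 2) := by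
        rw [Finset.sum_const, nsmul_eq_mul]
    _ ≤ ∑ i ∈ E, ∑ j, ‖⟪(b j : H), e i⟫_ℂ‖ ^ 2 := Finset.sum_le_sum h1
    _ = ∑ j, ∑ i ∈ E, ‖⟪(b j : H), e i⟫_ℂ‖ ^ 2 := Finset.sum_comm
    _ ≤ ∑ j : Fin (Module.finrank ℂ W), (1 : ℝ) := by
        apply Finset.sum_le_sum
        intro j _
        have h2 := he.sum_inner_products_le (x := (b j : H)) (s := E)
        have h3 : ‖(b j : H)‖ = 1 := b.orthonormal.1 j
        rw [h3, one_pow] at h2
        refine le_trans (le_of_eq ?_) h2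
        apply Finset.sum_congr rfl
        intro i _
        rw [← inner_conj_symm, RCLike.norm_conj]
    _ = Module.finrank ℂ W := by simp
    _ ≤ J.card := by exact_mod_cast hrank

end Pool.Agent.Y316.BT
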