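import Mathlib

set_option autoImplicit false

/-! Topological entropy of an action on a compact space along finite sets, and algebraic entropy
of the dual action. -/

namespace Pool.Agent.Y316.BT

/-- The refinement `⋁_{s ∈ F} γ(s)⁻¹ 𝒰` of a family `𝒰` of subsets of `K`. -/
def join {S K : Type*} (γ : S → K → K) (F : Finset S) (𝒰 : Set (Set K)) : Set (Set K) :=
  {W | ∃ V : S → Set K, (∀ s ∈ F, V s ∈ 𝒰) ∧ W = ⋂ s ∈ F, γ s ⁻¹' V s}

/-- The least number of members of `𝒲` that cover `K`. -/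
noncomputable def cov {K : Type*} (𝒲 : Set (Set K)) : ℕ :=
  sInf {n | ∃ t : Finset (Set K), (t : Set (Set K)) ⊆ 𝒲 ∧
    ⋃₀ (t : Set (Set K)) = Set.univ ∧ t.card = n}

/-- The finite open covers of `K`. -/
def OpenCover (K : Type*) [TopologicalSpace K] : Set (Set (Set K)) :=
  {𝒰 | 𝒰.Finite ∧ (∀ U ∈ 𝒰, IsOpen U) ∧ ⋃₀ 𝒰 = Set.univ}

/-- The product set `T_F(X) = ∏_{s ∈ F} X · s` in the dual group (written multiplicatively),
where `χ · s = χ ∘ γ(s)`. -/
def traj {S K : Type*} [CommGroup K] [TopologicalSpace K] (γ : S → (K →ₜ* K)) (F : Finset S)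
    (X : Set (K →ₜ* Circle)) : Set (K →ₜ* Circle) :=
  {ψ | ∃ x : S → (K →ₜ* Circle), (∀ s ∈ F, x s ∈ X) ∧ ψ = ∏ s ∈ F, (x s).comp (γ s)}

/-- `(F_i)` is a left Folner net of the monoid `S`: non-empty finite subsets with
`|s F_i \ F_i| / |F_i| → 0` for every `s`. -/
structure IsLeftFolner {S ι : Type*} [Monoid S] [Preorder ι] (F : ι → Finset S) : Prop where
  nonempty : ∀ i, (F i).Nonempty
  tendsto : ∀ s : S, Filter.Tendsto
    (fun i => ((((fun t => s * t) '' (F i : Set S)) \ (F i : Set S)).ncard : ℝ) / (F i).card)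
    Filter.atTop (nhds 0)

/-- `log N(𝒰_F) / |F|`. -/
noncomputable def topRatio {S K : Type*} (γ : S → K → K) (𝒰 : Set (Set K)) (F : Finset S) :
    EReal :=
  ((Real.log (cov (join γ F 𝒰)) / F.card : ℝ) : EReal)

/-- `log |T_F(X)| / |F|`. -/
noncomputable def algRatio {S K : Type*} [CommGroup K] [TopologicalSpace K] (γ : S → (K →ₜ* K))
    (X : Set (K →ₜ* Circle)) (F : Finset S) : EReal :=
  ((Real.log ((traj γ F X).ncard) / F.card : ℝ) : EReal)

end Pool.Agent.Y316.BT
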