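import Mathlib
import Pool.Agent.TH264.Bridge.PW

set_option autoImplicit false
set_option linter.unusedSectionVars false

/-! Characters of a compact abelian group as an orthonormal basis, and positive definite
functions with small support. -/

namespace Pool.Agent.Y316.BT

open MeasureTheory Filter Topology Set
open scoped ComplexConjugate InnerProductSpace

universe u

variable {K : Type u} [CommGroup K] [TopologicalSpace K] [IsTopologicalGroup K]

/-- A character as a continuous complex function. -/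
noncomputable def cf (χ : K →ₜ* Circle) : C(K, ℂ) := ⟨fun k => (χ k : ℂ), by fun_prop⟩

lemma cf_apply (χ : K →ₜ* Circle) (k : K) : cf χ k = (χ k : ℂ) := rfl

lemma cf_mul (χ ψ : K →ₜ* Circle) : cf (χ * ψ) = cf χ * cf ψ := by
  ext k
  simp [cf_apply]

lemma cf_one : cf (1 : K →ₜ* Circle) = 1 := by
  ext k
  simp [cf_apply]

lemma cf_inv (χ : K →ₜ* Circle) : cf χ⁻¹ = star (cf χ) := by
  ext k
  simp only [cf_apply, ContinuousMap.star_apply]
  change ((χ k)⁻¹ : Circle).1 = _
  rw [Circle.coe_inv_eq_conj]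
  rfl

lemma cf_injective : Function.Injective (cf (K := K)) := by
  intro χ ψ h
  ext k
  have := congrArg (fun f : C(K, ℂ) => f k) h
  exact this

/-- The star subalgebra generated by the characters. -/
noncomputable def chAlg (K : Type u) [CommGroup K] [TopologicalSpace K] [IsTopologicalGroup K] :
    StarSubalgebra ℂ C(K, ℂ) where
  toSubalgebra := Algebra.adjoin ℂ (range (cf (K := K)))
  star_mem' := by
    change Algebra.adjoin ℂ (range (cf (K := K))) ≤
      star (Algebra.adjoin ℂ (range (cf (K := K))))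
    refine Algebra.adjoin_le ?_
    rintro - ⟨χ, rfl⟩
    exact Algebra.subset_adjoin ⟨χ⁻¹, cf_inv χ⟩

lemma chAlg_coe : Subalgebra.toSubmodule (chAlg K).toSubalgebra =
    Submodule.span ℂ (range (cf (K := K))) := by
  apply Algebra.adjoin_eq_span_of_subset
  refine Subset.trans ?_ Submodule.subset_span
  intro x hx
  refine Submonoid.closure_induction (fun _ => id) ⟨1, cf_one⟩ ?_ hx
  rintro - - - - ⟨m, rfl⟩ ⟨n, rfl⟩
  exact ⟨m * n, cf_mul m n⟩

lemma char_sep [CompactSpace K] [T2Space K] {x y : K} (h : x ≠ y) :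
    ∃ χ : K →ₜ* Circle, χ x ≠ χ y := by
  obtain ⟨χ, hχ, h1⟩ := Pool.Agent.TH264.Bridge.char_sep_mul K (x * y⁻¹)
    (by rwa [Ne, mul_inv_eq_one])
  refine ⟨⟨χ, hχ⟩, ?_⟩
  intro h2
  apply h1
  have h2' : χ x = χ y := h2
  rw [map_mul, map_inv, h2', mul_inv_cancel]

lemma chAlg_sep [CompactSpace K] [T2Space K] : (chAlg K).SeparatesPoints := by
  intro x y hxy
  obtain ⟨χ, hχ⟩ := char_sep hxy
  refine ⟨_, ⟨cf χ, Algebra.subset_adjoin ⟨χ, rfl⟩, rfl⟩, ?_⟩
  intro h
  exact hχ (Subtype.ext h)

lemma span_dense [CompactSpace K] [T2Space K] :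
    (Submodule.span ℂ (range (cf (K := K)))).topologicalClosure = ⊤ := by
  rw [← chAlg_coe]
  exact congr_arg (Subalgebra.toSubmodule <| StarSubalgebra.toSubalgebra ·)
    (ContinuousMap.starSubalgebra_topologicalClosure_eq_top_of_separatesPoints (chAlg K) chAlg_sep)

section meas

variable [CompactSpace K] [MeasurableSpace K] [BorelSpace K]

/-- The normalised Haar measure. -/
noncomputable def hm (K : Type u) [CommGroup K] [TopologicalSpace K] [IsTopologicalGroup K]
    [CompactSpace K] [MeasurableSpace K] [BorelSpace K] : Measure K :=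
  Measure.haarMeasure (⊤ : TopologicalSpace.PositiveCompacts K)

instance : (hm K).IsHaarMeasure := by unfold hm; infer_instance

instance : (hm K).Regular := by unfold hm; infer_instance

instance : IsProbabilityMeasure (hm K) := by
  refine ⟨?_⟩
  have := Measure.haarMeasure_self (K₀ := (⊤ : TopologicalSpace.PositiveCompacts K))
  exact this

lemma int_char {χ : K →ₜ* Circle} (h : χ ≠ 1) : ∫ k, (χ k : ℂ) ∂(hm K) = 0 := by
  obtain ⟨a, ha⟩ : ∃ a, χ a ≠ 1 := by
    by_contra hcon
    push Not at hcon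
    exact h (ContinuousMonoidHom.ext hcon)
  have h1 : ∫ k, (χ (a * k) : ℂ) ∂(hm K) = ∫ k, (χ k : ℂ) ∂(hm K) :=
    integral_mul_left_eq_self (fun k => (χ k : ℂ)) a
  have h2 : ∫ k, (χ (a * k) : ℂ) ∂(hm K) = (χ a : ℂ) * ∫ k, (χ k : ℂ) ∂(hm K) := by
    rw [← integral_const_mul]
    congr 1
    funext k
    rw [map_mul]
    rfl
  rw [h2] at h1
  by_contra hne
  apply ha
  apply Subtype.ext
  have : ((χ a : ℂ) - 1) * ∫ k, (χ k : ℂ) ∂(hm K) = 0 := by
    rw [sub_mul, h1, one_mul, sub_self]
  rcases mul_eq_zero.1 this with h | h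
  · exact sub_eq_zero.1 h
  · exact absurd h hne

/-- The class in `L²` of a continuous function. -/
noncomputable def L (f : C(K, ℂ)) : Lp ℂ 2 (hm K) := ContinuousMap.toLp 2 (hm K) ℂ f

lemma L_inner (f g : C(K, ℂ)) : ⟪L f, L g⟫_ℂ = ∫ k, g k * conj (f k) ∂(hm K) :=
  ContinuousMap.inner_toLp (hm K) f g

lemma L_orth : Orthonormal ℂ (fun χ : K →ₜ* Circle => L (cf χ)) := by
  classical
  rw [orthonormal_iff_ite]
  intro χ ψ
  rw [L_inner]
  have h : ∀ k, cf ψ k * conj (cf χ k) = ((ψ * χ⁻¹ : K →ₜ* Circle) k : ℂ) := by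
    intro k
    have h1 := congrArg (fun f : C(K, ℂ) => f k) (cf_mul ψ χ⁻¹)
    have h2 := congrArg (fun f : C(K, ℂ) => f k) (cf_inv χ)
    simp only [cf_apply, ContinuousMap.mul_apply, ContinuousMap.star_apply] at h1 h2 ⊢
    rw [h1, h2]
    rfl
  simp_rw [h]
  split_ifs with heq
  · subst heq
    rw [mul_inv_cancel]
    simp
  · apply int_char
    intro h1
    exact heq (mul_inv_eq_one.1 h1).symm

lemma L_dense [T2Space K] :
    (Submodule.span ℂ (range (fun χ : K →ₜ* Circle => L (cf χ)))).topologicalClosure = ⊤ := by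
  convert!
    (ContinuousMap.toLp_denseRange ℂ (hm K) ℂ (p := 2) (by simp)).topologicalClosure_map_submodule
      (span_dense (K := K))
  rw [Submodule.map_span]
  congr 1
  ext x
  simp [L]

/-- The Hilbert basis of characters. -/
noncomputable def hb (K : Type u) [CommGroup K] [TopologicalSpace K] [IsTopologicalGroup K]
    [CompactSpace K] [T2Space K] [MeasurableSpace K] [BorelSpace K] :
    HilbertBasis (K →ₜ* Circle) ℂ (Lp ℂ 2 (hm K)) :=
  HilbertBasis.mk L_orth L_dense.ge

lemma hb_apply [T2Space K] (χ : K →ₜ* Circle) : hb K χ = L (cf χ) := by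
  rw [hb, HilbertBasis.coe_mk]

end meas

end Pool.Agent.Y316.BT
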