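import Mathlib
import Pool.Agent.Y316.BT.Char

set_option autoImplicit false
set_option linter.unusedSectionVars false

/-! Positive definite functions with small support on a compact abelian group. -/

namespace Pool.Agent.Y316.BT

open MeasureTheory Filter Topology Set
open scoped ComplexConjugate InnerProductSpace

universe u

variable {K : Type u} [CommGroup K] [TopologicalSpace K] [IsTopologicalGroup K]
  [CompactSpace K] [T2Space K] [MeasurableSpace K] [BorelSpace K]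

/-- Translate of a continuous function. -/
noncomputable def tr (a : K) (f : C(K, ℂ)) : C(K, ℂ) := ⟨fun x => f (a * x), by fun_prop⟩

lemma inner_tr (a : K) (f : C(K, ℂ)) (χ : K →ₜ* Circle) :
    ⟪L (cf χ), L (tr a f)⟫_ℂ = (χ a : ℂ) * ⟪L (cf χ), L f⟫_ℂ := by
  rw [L_inner, L_inner]
  have h := integral_mul_left_eq_self (μ := hm K) (fun x => f (a * x) * conj (cf χ x)) a⁻¹
  change ∫ x, f (a * x) * conj (cf χ x) ∂(hm K) = _
  rw [← h, ← integral_const_mul]
  congr 1
  funext x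
  have h1 : a * (a⁻¹ * x) = x := by group
  rw [h1]
  simp only [cf_apply, map_mul, map_inv, Circle.coe_mul, Circle.coe_inv_eq_conj, map_mul,
    Complex.conj_conj]
  ring

lemma exists_pd {V : Set K} (hV : V ∈ 𝓝 (1 : K)) :
    ∃ c : (K →ₜ* Circle) → ℝ, (∀ χ, 0 ≤ c χ) ∧ HasSum c 1 ∧
      ∀ k, k ∉ V → HasSum (fun χ => (c χ : ℂ) * (χ k : ℂ)) 0 := by
  obtain ⟨W, hW, hWV⟩ := exists_nhds_split_inv hV
  have hd : Disjoint ({1} : Set K) (interior W)ᶜ := by
    rw [disjoint_compl_right_iff_subset, singleton_subset_iff]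
    exact mem_interior_iff_mem_nhds.2 hW
  obtain ⟨f0, hf1, hf0, -, -⟩ := exists_continuous_one_zero_of_isCompact
    (isCompact_singleton (x := (1 : K))) (isOpen_interior.isClosed_compl) hd
  let f : C(K, ℂ) := ⟨fun x => (f0 x : ℂ), by fun_prop⟩
  have hf : ∀ x, f x ≠ 0 → x ∈ W := by
    intro x hx
    by_contra hcon
    apply hx
    have : f0 x = 0 := hf0 (fun h => hcon (interior_subset h))
    change (f0 x : ℂ) = 0
    rw [this, Complex.ofReal_zero]
  have hne : L f ≠ 0 := by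
    intro h
    have h1 : f = 0 := by
      apply ContinuousMap.toLp_injective (p := 2) (𝕜 := ℂ) (hm K)
      rw [map_zero]
      exact h
    have h2 : f 1 = 0 := by rw [h1]; rfl
    have h3 : f0 1 = 1 := hf1 rfl
    change (f0 1 : ℂ) = 0 at h2
    rw [h3] at h2
    norm_num at h2
  have hA : 0 < ‖L f‖ ^ 2 := by positivity
  refine ⟨fun χ => ‖⟪L (cf χ), L f⟫_ℂ‖ ^ 2 / ‖L f‖ ^ 2, fun χ => by positivity, ?_, ?_⟩
  · have h := (hb K).hasSum_inner_mul_inner (L f) (L f)
    have h2 : HasSum (fun χ => ‖⟪L (cf χ), L f⟫_ℂ‖ ^ 2) (‖L f‖ ^ 2) := by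
      rw [← Complex.hasSum_ofReal]
      have e1 : (fun χ => ⟪L f, (hb K) χ⟫_ℂ * ⟪(hb K) χ, L f⟫_ℂ) =
          fun χ => ((‖⟪L (cf χ), L f⟫_ℂ‖ ^ 2 : ℝ) : ℂ) := by
        funext χ
        rw [hb_apply, ← inner_conj_symm (L f) (L (cf χ)), Complex.conj_mul']
        push_cast
        rfl
      have e2 : ⟪L f, L f⟫_ℂ = ((‖L f‖ ^ 2 : ℝ) : ℂ) := by
        rw [inner_self_eq_norm_sq_to_K]
        push_cast
        rfl
      rw [e1, e2] at h
      exact h
    have h3 := h2.div_const (‖L f‖ ^ 2)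
    rwa [div_self hA.ne'] at h3
  · intro k hk
    have h := (hb K).hasSum_inner_mul_inner (L f) (L (tr k f))
    have h0 : ⟪L f, L (tr k f)⟫_ℂ = 0 := by
      rw [L_inner]
      have : (fun x => (tr k f) x * conj (f x)) = fun _ => (0 : ℂ) := by
        funext x
        by_contra hcon
        have h1 : f (k * x) ≠ 0 := fun h => hcon (by
          change f (k * x) * _ = 0
          rw [h, zero_mul])
        have h2 : f x ≠ 0 := fun h => hcon (by rw [h, map_zero, mul_zero])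
        apply hk
        have := hWV (k * x) (hf _ h1) x (hf _ h2)
        rwa [mul_div_cancel_right] at this
      rw [this]
      simp
    rw [h0] at h
    have h3 := h.div_const ((‖L f‖ ^ 2 : ℝ) : ℂ)
    rw [zero_div] at h3
    have e1 : (fun χ => ⟪L f, (hb K) χ⟫_ℂ * ⟪(hb K) χ, L (tr k f)⟫_ℂ / ((‖L f‖ ^ 2 : ℝ) : ℂ)) =
        fun χ => ((‖⟪L (cf χ), L f⟫_ℂ‖ ^ 2 / ‖L f‖ ^ 2 : ℝ) : ℂ) * (χ k : ℂ) := by
      funext χ
      rw [hb_apply, inner_tr, ← inner_conj_symm (L f) (L (cf χ))]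
      have e : conj ⟪L (cf χ), L f⟫_ℂ * ((χ k : ℂ) * ⟪L (cf χ), L f⟫_ℂ) =
          (χ k : ℂ) * (conj ⟪L (cf χ), L f⟫_ℂ * ⟪L (cf χ), L f⟫_ℂ) := by ring
      rw [e, Complex.conj_mul']
      push_cast
      ring
    rw [e1] at h3
    exact h3

end Pool.Agent.Y316.BT
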