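import Mathlib
import Pool.Agent.Y316.BT.PD

set_option autoImplicit false
set_option linter.unusedSectionVars false

/-! Lower bound for the Haar measure of a dynamical neighbourhood. -/

namespace Pool.Agent.Y316.BT

open MeasureTheory Filter Topology Set
open scoped ComplexConjugate InnerProductSpace

universe u

variable {K : Type u} [CommGroup K] [TopologicalSpace K] [IsTopologicalGroup K]
  [CompactSpace K] [T2Space K] [MeasurableSpace K] [BorelSpace K]

lemma L_sum {J : Type*} (s : Finset J) (f : J → C(K, ℂ)) :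
    L (∑ j ∈ s, f j) = ∑ j ∈ s, L (f j) := by
  simp only [L, map_sum]

lemma L_smul (a : ℂ) (f : C(K, ℂ)) : L (a • f) = a • L f := by
  simp only [L, map_smul]

lemma L_norm_sq (f : C(K, ℂ)) : ‖L f‖ ^ 2 = ∫ k, ‖f k‖ ^ 2 ∂(hm K) := by
  have h1 := L_inner f f
  have e2 : ⟪L f, L f⟫_ℂ = ((‖L f‖ ^ 2 : ℝ) : ℂ) := by
    rw [inner_self_eq_norm_sq_to_K]
    push_cast
    rfl
  rw [e2] at h1
  have h3 : ∫ k, f k * conj (f k) ∂(hm K) = ((∫ k, ‖f k‖ ^ 2 ∂(hm K) : ℝ) : ℂ) := by
    rw [← integral_complex_ofReal]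
    congr 1
    funext k
    rw [Complex.mul_conj']
    push_cast
    rfl
  rw [h3] at h1
  exact_mod_cast h1

variable {ι : Type*} [Fintype ι] [DecidableEq ι]

/-- `∏ xᵢ ∘ γᵢ`. -/
noncomputable def Phi (γ : ι → (K →ₜ* K)) (x : ι → (K →ₜ* Circle)) : K →ₜ* Circle :=
  ∏ i, (x i).comp (γ i)

lemma cmh_prod_apply {J : Type*} (s : Finset J) (f : J → (K →ₜ* Circle)) (k : K) :
    (∏ j ∈ s, f j) k = ∏ j ∈ s, f j k := by
  classical
  induction s using Finset.induction_on with
  | empty => rfl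
  | insert a s ha ih =>
    rw [Finset.prod_insert ha, Finset.prod_insert ha, ← ih]
    rfl

lemma Phi_apply (γ : ι → (K →ₜ* K)) (x : ι → (K →ₜ* Circle)) (k : K) :
    (Phi γ x k : ℂ) = ∏ i, (x i (γ i k) : ℂ) := by
  rw [Phi, cmh_prod_apply]
  have : ∀ s : Finset ι, ((∏ j ∈ s, ((x j).comp (γ j)) k : Circle) : ℂ) =
      ∏ j ∈ s, (x j (γ j k) : ℂ) := by
    intro s
    induction s using Finset.induction_on with
    | empty => simp
    | insert a s ha ih =>
      rw [Finset.prod_insert ha, Finset.prod_insert ha, ← ih]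
      rfl
  exact this _

/-- The truncated positive definite function. -/
noncomputable def qf (c : (K →ₜ* Circle) → ℝ) (Y : Finset (K →ₜ* Circle)) (k : K) : ℂ :=
  ∑ χ ∈ Y, (c χ : ℂ) * (χ k : ℂ)

/-- The product of the `qf ∘ γᵢ` as a combination of characters. -/
noncomputable def pf (γ : ι → (K →ₜ* K)) (c : (K →ₜ* Circle) → ℝ)
    (Y : Finset (K →ₜ* Circle)) : C(K, ℂ) :=
  ∑ x ∈ Fintype.piFinset (fun _ : ι => Y), ((∏ i, c (x i) : ℝ) : ℂ) • cf (Phi γ x)

lemma pf_apply (γ : ι → (K →ₜ* K)) (c : (K →ₜ* Circle) → ℝ)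
    (Y : Finset (K →ₜ* Circle)) (k : K) : pf γ c Y k = ∏ i, qf c Y (γ i k) := by
  unfold qf pf
  rw [Finset.prod_univ_sum, ContinuousMap.coe_sum, Finset.sum_apply]
  apply Finset.sum_congr rfl
  intro x _
  rw [ContinuousMap.smul_apply, cf_apply, Phi_apply, Finset.prod_mul_distrib, smul_eq_mul]
  push_cast
  rfl

lemma qf_norm_le {c : (K →ₜ* Circle) → ℝ} (hc : ∀ χ, 0 ≤ c χ) (hs : HasSum c 1)
    (Y : Finset (K →ₜ* Circle)) (k : K) : ‖qf c Y k‖ ≤ 1 := by
  have h1 : ‖qf c Y k‖ ≤ ∑ χ ∈ Y, c χ := by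
    unfold qf
    refine (norm_sum_le _ _).trans (Finset.sum_le_sum fun χ _ => ?_)
    rw [norm_mul, Circle.norm_coe, mul_one, Complex.norm_real, Real.norm_of_nonneg (hc χ)]
  exact h1.trans (sum_le_hasSum Y (fun χ _ => hc χ) hs)

lemma qf_norm_le' {c : (K →ₜ* Circle) → ℝ} (hc : ∀ χ, 0 ≤ c χ) (hs : HasSum c 1)
    (Y : Finset (K →ₜ* Circle)) (k : K) (hk : HasSum (fun χ => (c χ : ℂ) * (χ k : ℂ)) 0) :
    ‖qf c Y k‖ ≤ 1 - ∑ χ ∈ Y, c χ := by
  classical
  have hlim : Tendsto (fun Z : Finset (K →ₜ* Circle) => ‖qf c Z k‖ + (1 - ∑ χ ∈ Y, c χ)) atTop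
      (𝓝 (‖(0 : ℂ)‖ + (1 - ∑ χ ∈ Y, c χ))) := (Tendsto.norm hk).add_const _
  rw [norm_zero, zero_add] at hlim
  refine ge_of_tendsto hlim ?_
  filter_upwards [eventually_ge_atTop Y] with Z hZ
  have h1 : qf c Y k = qf c Z k - ∑ χ ∈ Z \ Y, (c χ : ℂ) * (χ k : ℂ) := by
    unfold qf
    rw [← Finset.sum_sdiff hZ]
    ring
  have h2 : ‖∑ χ ∈ Z \ Y, (c χ : ℂ) * (χ k : ℂ)‖ ≤ ∑ χ ∈ Z \ Y, c χ := by
    refine (norm_sum_le _ _).trans (Finset.sum_le_sum fun χ _ => ?_)
    rw [norm_mul, Circle.norm_coe, mul_one, Complex.norm_real, Real.norm_of_nonneg (hc χ)]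
  have h3 : ∑ χ ∈ Z \ Y, c χ = ∑ χ ∈ Z, c χ - ∑ χ ∈ Y, c χ := by
    rw [← Finset.sum_sdiff hZ]
    ring
  have h4 := sum_le_hasSum Z (fun χ _ => hc χ) hs
  rw [h1]
  refine (norm_sub_le _ _).trans ?_
  linarith

/-- Volume estimate. -/
theorem vol_lower {V : Set K} (hVo : IsOpen V) {c : (K →ₜ* Circle) → ℝ} (hc : ∀ χ, 0 ≤ c χ)
    (hs : HasSum c 1) (hV : ∀ k, k ∉ V → HasSum (fun χ => (c χ : ℂ) * (χ k : ℂ)) 0)
    (X : Finset (K →ₜ* Circle)) (γ : ι → (K →ₜ* K)) (E : Finset (K →ₜ* Circle))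
    (hE : ∀ x : ι → (K →ₜ* Circle), (∀ i, x i ∈ X) → Phi γ x ∈ E) :
    ((∑ χ ∈ X, c χ) ^ Fintype.card ι) ^ 2 ≤
      (E.card : ℝ) * (hm K).real {k | ∀ i, γ i k ∈ V} := by
  classical
  set a : ℝ := ∑ χ ∈ X, c χ with ha
  set G : Set K := {k | ∀ i, γ i k ∈ V} with hG
  have hGo : IsOpen G := by
    have : G = ⋂ i, γ i ⁻¹' V := by
      ext k; simp [hG]
    rw [this]
    exact isOpen_iInter_of_finite fun i => hVo.preimage (γ i).continuous_toFun
  -- main estimate for a truncation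
  have key : ∀ Y : Finset (K →ₜ* Circle), X ⊆ Y →
      (a ^ Fintype.card ι) ^ 2 ≤ (E.card : ℝ) * ((hm K).real G + (1 - ∑ χ ∈ Y, c χ) ^ 2) ∨
      Fintype.card ι = 0 ∧ True := by
    intro Y hXY
    by_cases hι : Fintype.card ι = 0
    · exact Or.inr ⟨hι, trivial⟩
    left
    set v : Lp ℂ 2 (hm K) := ∑ ψ ∈ E, L (cf ψ) with hv
    have hvn : ‖v‖ ^ 2 = E.card := by
      have h1 : ⟪v, v⟫_ℂ = (E.card : ℂ) := by
        rw [hv, sum_inner]
        have h2 : ∀ ψ ∈ E, ⟪L (cf ψ), ∑ ψ ∈ E, L (cf ψ)⟫_ℂ = 1 := by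
          intro ψ hψ
          rw [inner_sum]
          have h3 := orthonormal_iff_ite.1 (L_orth (K := K)) ψ
          rw [Finset.sum_congr rfl (fun j _ => h3 j)]
          rw [Finset.sum_ite_eq]
          simp [hψ]
        rw [Finset.sum_congr rfl h2]
        simp
      have e2 : ⟪v, v⟫_ℂ = ((‖v‖ ^ 2 : ℝ) : ℂ) := by
        rw [inner_self_eq_norm_sq_to_K]
        push_cast
        rfl
      rw [e2] at h1
      exact_mod_cast h1
    have hinner : ⟪v, L (pf γ c Y)⟫_ℂ =
        ((∑ x ∈ Fintype.piFinset (fun _ : ι => Y),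
          (if Phi γ x ∈ E then ∏ i, c (x i) else 0) : ℝ) : ℂ) := by
      rw [hv, pf, L_sum, inner_sum]
      push_cast
      apply Finset.sum_congr rfl
      intro x _
      rw [L_smul, inner_smul_right, sum_inner]
      have h3 : ∀ ψ ∈ E, ⟪L (cf ψ), L (cf (Phi γ x))⟫_ℂ = if ψ = Phi γ x then 1 else 0 :=
        fun ψ _ => orthonormal_iff_ite.1 (L_orth (K := K)) ψ _
      rw [Finset.sum_congr rfl h3, Finset.sum_ite_eq']
      split_ifs <;> simp
    have hlow : a ^ Fintype.card ι ≤ ∑ x ∈ Fintype.piFinset (fun _ : ι => Y),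
          (if Phi γ x ∈ E then ∏ i, c (x i) else 0) := by
      have h1 : a ^ Fintype.card ι = ∑ x ∈ Fintype.piFinset (fun _ : ι => X), ∏ i, c (x i) := by
        rw [← Finset.prod_univ_sum, Finset.prod_const, Finset.card_univ]
      rw [h1]
      have h2 : ∑ x ∈ Fintype.piFinset (fun _ : ι => X), ∏ i, c (x i) =
          ∑ x ∈ Fintype.piFinset (fun _ : ι => X),
            (if Phi γ x ∈ E then ∏ i, c (x i) else 0) := by
        apply Finset.sum_congr rfl
        intro x hx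
        rw [Fintype.mem_piFinset] at hx
        rw [if_pos (hE x hx)]
      rw [h2]
      apply Finset.sum_le_sum_of_subset_of_nonneg
      · exact Fintype.piFinset_subset _ _ fun _ => hXY
      · intro x _ _
        split_ifs
        · exact Finset.prod_nonneg fun i _ => hc _
        · exact le_rfl
    have hCS : a ^ Fintype.card ι ≤ ‖v‖ * ‖L (pf γ c Y)‖ := by
      have h1 := norm_inner_le_norm (𝕜 := ℂ) v (L (pf γ c Y))
      rw [hinner, Complex.norm_real] at h1
      exact hlow.trans ((le_abs_self _).trans h1)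
    have ha0 : 0 ≤ a := Finset.sum_nonneg fun χ _ => hc χ
    have hsq : (a ^ Fintype.card ι) ^ 2 ≤ ‖v‖ ^ 2 * ‖L (pf γ c Y)‖ ^ 2 := by
      rw [← mul_pow]
      exact pow_le_pow_left₀ (by positivity) hCS 2
    rw [hvn] at hsq
    refine hsq.trans ?_
    apply mul_le_mul_of_nonneg_left _ (Nat.cast_nonneg _)
    rw [L_norm_sq]
    set η : ℝ := 1 - ∑ χ ∈ Y, c χ with hη
    have hη0 : 0 ≤ η := by
      have := sum_le_hasSum Y (fun χ _ => hc χ) hs
      linarith
    have hpt : ∀ k, ‖pf γ c Y k‖ ^ 2 ≤ G.indicator (fun _ => (1 : ℝ)) k + η ^ 2 := by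
      intro k
      rw [pf_apply, norm_prod]
      by_cases hk : k ∈ G
      · rw [indicator_of_mem hk]
        have h1 : ∏ i, ‖qf c Y (γ i k)‖ ≤ 1 :=
          Finset.prod_le_one (fun i _ => norm_nonneg _) fun i _ => qf_norm_le hc hs Y _
        have h2 : 0 ≤ ∏ i, ‖qf c Y (γ i k)‖ := Finset.prod_nonneg fun i _ => norm_nonneg _
        nlinarith [sq_nonneg η]
      · rw [indicator_of_notMem hk, zero_add]
        have hk' : ∃ i, γ i k ∉ V := by
          by_contra hcon
          push Not at hcon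
          exact hk hcon
        obtain ⟨i, hi⟩ := hk'
        have h1 : ∏ i, ‖qf c Y (γ i k)‖ ≤ η := by
          rw [← Finset.mul_prod_erase Finset.univ _ (Finset.mem_univ i)]
          have h2 : ∏ j ∈ Finset.univ.erase i, ‖qf c Y (γ j k)‖ ≤ 1 :=
            Finset.prod_le_one (fun i _ => norm_nonneg _) fun i _ => qf_norm_le hc hs Y _
          have h3 := qf_norm_le' hc hs Y _ (hV _ hi)
          calc ‖qf c Y (γ i k)‖ * ∏ j ∈ Finset.univ.erase i, ‖qf c Y (γ j k)‖
              ≤ ‖qf c Y (γ i k)‖ * 1 := mul_le_mul_of_nonneg_left h2 (norm_nonneg _)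
            _ ≤ η := by rw [mul_one]; exact h3
        have h2 : 0 ≤ ∏ i, ‖qf c Y (γ i k)‖ := Finset.prod_nonneg fun i _ => norm_nonneg _
        exact pow_le_pow_left₀ h2 h1 2
    calc ∫ k, ‖pf γ c Y k‖ ^ 2 ∂(hm K)
        ≤ ∫ k, (G.indicator (fun _ => (1 : ℝ)) k + η ^ 2) ∂(hm K) := by
          apply integral_mono_of_nonneg
          · exact Eventually.of_forall fun k => by positivity
          · apply Integrable.add
            · exact (integrable_const 1).indicator hGo.measurableSet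
            · exact integrable_const _
          · exact Eventually.of_forall hpt
      _ = (hm K).real G + η ^ 2 := by
          rw [integral_add ((integrable_const 1).indicator hGo.measurableSet)
            (integrable_const _), integral_indicator hGo.measurableSet]
          simp
  by_cases hι : Fintype.card ι = 0
  · -- trivial case
    have hGu : G = univ := by
      ext k
      simp only [hG, mem_setOf_eq, mem_univ, iff_true]
      intro i
      exact absurd hι (Fintype.card_pos_iff.2 ⟨i⟩).ne'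
    rw [hι, pow_zero, one_pow, hGu]
    have h1 : (hm K).real univ = 1 := by simp
    rw [h1, mul_one]
    have : IsEmpty ι := Fintype.card_eq_zero_iff.1 hι
    have h2 : Phi γ (fun i => isEmptyElim i) ∈ E := hE _ fun i => isEmptyElim i
    have h3 : 0 < E.card := Finset.card_pos.2 ⟨_, h2⟩
    exact_mod_cast h3
  · have hlim : Tendsto (fun Y : Finset (K →ₜ* Circle) =>
        (E.card : ℝ) * ((hm K).real G + (1 - ∑ χ ∈ Y, c χ) ^ 2)) atTop
        (𝓝 ((E.card : ℝ) * ((hm K).real G + (1 - 1) ^ 2))) := by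
      apply Tendsto.const_mul
      apply Tendsto.const_add
      apply Tendsto.pow
      exact Tendsto.const_sub 1 hs
    rw [sub_self, zero_pow two_ne_zero, add_zero] at hlim
    refine ge_of_tendsto hlim ?_
    filter_upwards [eventually_ge_atTop X] with Y hY
    rcases key Y hY with h | h
    · exact h
    · exact absurd h.1 hι

end Pool.Agent.Y316.BT
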