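import Mathlib
import Pool.Agent.Y316.BT.Defs
import Pool.Agent.Y316.BT.Vol

set_option autoImplicit false
set_option linter.unusedSectionVars false

/-! Upper bound for covering numbers by the size of trajectories. -/

namespace Pool.Agent.Y316.BT

open MeasureTheory Filter Topology Set

universe u v

variable {K : Type u} [CommGroup K] [TopologicalSpace K] [IsTopologicalGroup K]
  [CompactSpace K] [T2Space K]

section packing

variable [MeasurableSpace K] [BorelSpace K]

lemma packing {G : Set K} (hG : MeasurableSet G) (hpos : 0 < (hm K).real G) :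
    ∃ A : Finset K, (A.card : ℝ) * (hm K).real G ≤ 1 ∧
      ∀ x, ∃ a ∈ A, ∃ v ∈ G, ∃ w ∈ G, x * v = a * w := by
  classical
  let T : K → Set K := fun a => (fun x => a⁻¹ * x) ⁻¹' G
  have hTm : ∀ a, MeasurableSet (T a) := fun a =>
    hG.preimage (by fun_prop : Continuous fun x : K => a⁻¹ * x).measurable
  have hTv : ∀ a, (hm K).real (T a) = (hm K).real G := by
    intro a
    simp only [measureReal_def, T]
    rw [measure_preimage_mul]
  let P : ℕ → Prop := fun n => ∃ A : Finset K, A.card = n ∧ (A : Set K).PairwiseDisjoint T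
  have hb : ∀ A : Finset K, (A : Set K).PairwiseDisjoint T →
      (A.card : ℝ) * (hm K).real G ≤ 1 := by
    intro A hA
    have h1 : (hm K).real (⋃ a ∈ A, T a) = ∑ a ∈ A, (hm K).real (T a) :=
      measureReal_biUnion_finset hA fun a _ => hTm a
    rw [Finset.sum_congr rfl (fun a _ => hTv a), Finset.sum_const, nsmul_eq_mul] at h1
    rw [← h1]
    exact measureReal_le_one
  have hex : ∃ n, P n ∧ ¬ P (n + 1) := by
    by_contra hcon
    push Not at hcon
    have hall : ∀ n, P n := by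
      intro n
      induction n with
      | zero => exact ⟨∅, rfl, by simp⟩
      | succ n ih => exact hcon n ih
    obtain ⟨n, hn⟩ := exists_nat_gt (1 / (hm K).real G)
    obtain ⟨A, hA, hd⟩ := hall n
    have h1 := hb A hd
    rw [hA] at h1
    rw [div_lt_iff₀ hpos] at hn
    linarith
  obtain ⟨n, ⟨A, hA, hd⟩, hn⟩ := hex
  refine ⟨A, hb A hd, fun x => ?_⟩
  obtain ⟨g, hg⟩ : G.Nonempty := by
    rw [nonempty_iff_ne_empty]
    intro h
    rw [h] at hpos
    simp at hpos
  by_cases hx : x ∈ A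
  · exact ⟨x, hx, g, hg, g, hg, rfl⟩
  by_contra hcon
  push Not at hcon
  apply hn
  refine ⟨insert x A, by rw [Finset.card_insert_of_notMem hx, hA], ?_⟩
  rw [Finset.coe_insert]
  refine hd.insert fun a ha _ => ?_
  rw [Set.disjoint_left]
  intro y hy1 hy2
  exact hcon a ha _ hy1 _ hy2 (by group)

end packing

lemma lebesgue {𝒰 : Set (Set K)} (ho : ∀ U ∈ 𝒰, IsOpen U) (hc : ⋃₀ 𝒰 = univ) :
    ∃ V ∈ 𝓝 (1 : K), ∀ x : K, ∃ U ∈ 𝒰, ∀ v ∈ V, x * v ∈ U := by
  have h1 : ∀ k : K, ∃ U ∈ 𝒰, ∃ O ∈ 𝓝 (1 : K), ∀ v ∈ O, ∀ w ∈ O, k * (v * w) ∈ U := by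
    intro k
    have hk : k ∈ ⋃₀ 𝒰 := by rw [hc]; trivial
    obtain ⟨U, hU, hkU⟩ := hk
    have h2 : {v : K | k * v ∈ U} ∈ 𝓝 (1 : K) := by
      apply ((ho U hU).preimage (by fun_prop : Continuous fun v : K => k * v)).mem_nhds
      change k * 1 ∈ U
      rwa [mul_one]
    obtain ⟨O, hO, hOO⟩ := exists_nhds_one_split h2
    exact ⟨U, hU, O, hO, fun v hv w hw => hOO v hv w hw⟩
  choose U hU O hO hUO using h1
  have h3 : ∀ k : K, {x : K | k⁻¹ * x ∈ O k} ∈ 𝓝 k := by
    intro k
    have : ContinuousAt (fun x : K => k⁻¹ * x) k := by fun_prop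
    have h4 : Tendsto (fun x : K => k⁻¹ * x) (𝓝 k) (𝓝 1) := by
      have := this.tendsto
      simpa using this
    exact h4 (hO k)
  obtain ⟨t, ht⟩ := CompactSpace.elim_nhds_subcover _ h3
  refine ⟨⋂ k ∈ t, O k, (Filter.biInter_finset_mem t).2 fun k _ => hO k, fun x => ?_⟩
  have hx : x ∈ ⋃ k ∈ t, {x : K | k⁻¹ * x ∈ O k} := by rw [ht]; trivial
  simp only [mem_iUnion] at hx
  obtain ⟨k, hk, hxk⟩ := hx
  refine ⟨U k, hU k, fun v hv => ?_⟩
  have h4 := hUO k _ hxk v (by
    simp only [mem_iInter] at hv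
    exact hv k hk)
  have h5 : k * (k⁻¹ * x * v) = x * v := by group
  rwa [h5] at h4

lemma traj_finite {S : Type v} (γ : S → (K →ₜ* K)) (F : Finset S) {X : Set (K →ₜ* Circle)}
    (hX : X.Finite) : (traj γ F X).Finite := by
  classical
  rcases X.eq_empty_or_nonempty with h | h
  · rcases F.eq_empty_or_nonempty with hF | ⟨s, hs⟩
    · apply (finite_singleton (1 : K →ₜ* Circle)).subset
      rintro ψ ⟨x, -, rfl⟩
      rw [hF]
      simp
    · apply (finite_empty (α := K →ₜ* Circle)).subset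
      rintro ψ ⟨x, hx, rfl⟩
      have := hx s hs
      rw [h] at this
      exact this
  obtain ⟨y, hy⟩ := h
  have hfin : (Set.univ : Set (∀ s : F, hX.toFinset)).Finite := Set.finite_univ
  refine (hfin.image fun z : (∀ s : F, hX.toFinset) =>
    ∏ s ∈ F.attach, (z s : K →ₜ* Circle).comp (γ s)).subset ?_
  rintro ψ ⟨x, hx, rfl⟩
  refine ⟨fun s => ⟨x s, hX.mem_toFinset.2 (hx s s.2)⟩, trivial, ?_⟩
  exact Finset.prod_attach F fun s => (x s).comp (γ s)

lemma traj_nonempty {S : Type v} (γ : S → (K →ₜ* K)) (F : Finset S) {X : Set (K →ₜ* Circle)}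
    (hX : X.Nonempty) : (traj γ F X).Nonempty := by
  obtain ⟨y, hy⟩ := hX
  exact ⟨_, fun _ => y, fun _ _ => hy, rfl⟩

lemma traj_ncard_pos {S : Type v} (γ : S → (K →ₜ* K)) (F : Finset S) {X : Set (K →ₜ* Circle)}
    (hX : X.Finite) (hX' : X.Nonempty) : 0 < (traj γ F X).ncard :=
  (Set.ncard_pos (traj_finite γ F hX)).2 (traj_nonempty γ F hX')

/-- Finite level upper bound for covering numbers. -/
theorem upper {𝒰 : Set (Set K)} (hU : 𝒰 ∈ OpenCover K) {δ : ℝ} (hδ : 0 < δ) :
    ∃ X : Set (K →ₜ* Circle), X.Finite ∧ X.Nonempty ∧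
      ∀ (S : Type v) (γ : S → (K →ₜ* K)) (F : Finset S),
        Real.log (cov (join (fun s => ⇑(γ s)) F 𝒰)) ≤
          Real.log ((traj γ F X).ncard) + δ * F.card := by
  classical
  let _ : MeasurableSpace K := borel K
  have _ : BorelSpace K := ⟨rfl⟩
  obtain ⟨-, ho, hc⟩ := hU
  obtain ⟨V0, hV0, hleb⟩ := lebesgue ho hc
  obtain ⟨V1, hV1, hV10⟩ := exists_nhds_split_inv hV0
  obtain ⟨V, hVV, hVo, hV1'⟩ := mem_nhds_iff.1 hV1
  obtain ⟨c, hc0, hcs, hcV⟩ := exists_pd (hVo.mem_nhds hV1')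
  have hexp : Real.exp (-(δ / 2)) < 1 := by
    rw [Real.exp_lt_one_iff]; linarith
  have hev : ∀ᶠ X : Finset (K →ₜ* Circle) in atTop, Real.exp (-(δ / 2)) < ∑ χ ∈ X, c χ :=
    hcs.eventually (lt_mem_nhds hexp)
  obtain ⟨X, hX, hX1⟩ := (hev.and (eventually_ge_atTop {1})).exists
  have hXne : X.Nonempty := ⟨1, hX1 (Finset.mem_singleton_self 1)⟩
  refine ⟨X, X.finite_toSet, hXne, fun S γ F => ?_⟩
  set E : Finset (K →ₜ* Circle) := (traj_finite γ F X.finite_toSet).toFinset with hE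
  have hEc : (traj γ F (X : Set (K →ₜ* Circle))).ncard = E.card := by
    rw [hE]; exact Set.ncard_eq_toFinset_card _ _
  have hEpos : 0 < E.card := by
    rw [← hEc]
    exact traj_ncard_pos γ F X.finite_toSet (by exact_mod_cast hXne)
  set G : Set K := {k | ∀ i : F, γ i k ∈ V} with hG
  have hGo : IsOpen G := by
    have : G = ⋂ i : F, γ i ⁻¹' V := by
      ext k; simp [hG]
    rw [this]
    exact isOpen_iInter_of_finite fun i => hVo.preimage (γ i).continuous_toFun
  have hvol := vol_lower hVo hc0 hcs hcV X (fun i : F => γ i) E (by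
    intro x hx
    rw [hE, Set.Finite.mem_toFinset]
    refine ⟨fun s => if h : s ∈ F then x ⟨s, h⟩ else 1, ?_, ?_⟩
    · intro s hs
      simp only [dif_pos hs]
      exact_mod_cast hx ⟨s, hs⟩
    · rw [Phi, ← Finset.prod_coe_sort F]
      apply Finset.prod_congr rfl
      intro i _
      simp)
  rw [Fintype.card_coe] at hvol
  have hexpn : Real.exp (-(δ * F.card)) ≤ (E.card : ℝ) * (hm K).real G := by
    refine le_trans ?_ hvol
    have h1 : Real.exp (-(δ * F.card)) = ((Real.exp (-(δ / 2))) ^ F.card) ^ 2 := by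
      rw [← Real.exp_nat_mul, ← Real.exp_nat_mul]
      congr 1
      push_cast
      ring
    rw [h1]
    exact pow_le_pow_left₀ (by positivity)
      (pow_le_pow_left₀ (Real.exp_nonneg _) hX.le _) 2
  have hGpos : 0 < (hm K).real G := by
    have h1 := Real.exp_pos (-(δ * F.card))
    have h2 : 0 < (E.card : ℝ) * (hm K).real G := h1.trans_le hexpn
    exact pos_of_mul_pos_right h2 (Nat.cast_nonneg _)
  obtain ⟨A, hA, hcovA⟩ := packing hGo.measurableSet hGpos
  -- the cover
  choose Ux hUx hUxv using hleb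
  let W : K → Set K := fun a => ⋂ s ∈ F, (γ s) ⁻¹' Ux (γ s a)
  have hcov : cov (join (fun s => ⇑(γ s)) F 𝒰) ≤ A.card := by
    refine le_trans (Nat.sInf_le ⟨A.image W, ?_, ?_, rfl⟩) Finset.card_image_le
    · intro B hB
      rw [Finset.mem_coe, Finset.mem_image] at hB
      obtain ⟨a, -, rfl⟩ := hB
      exact ⟨fun s => Ux (γ s a), fun s _ => hUx _, rfl⟩
    · rw [eq_univ_iff_forall]
      intro x
      obtain ⟨a, ha, v, hv, w, hw, hxv⟩ := hcovA x
      refine ⟨W a, by exact_mod_cast Finset.mem_image_of_mem W ha, ?_⟩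
      simp only [W, mem_iInter]
      intro s hs
      change γ s x ∈ Ux (γ s a)
      have h1 : γ s x = γ s a * (γ s w / γ s v) := by
        have h2 : γ s x * γ s v = γ s a * γ s w := by
          rw [← map_mul, hxv, map_mul]
        rw [← mul_div_assoc, eq_div_iff_mul_eq', h2]
      rw [h1]
      exact hUxv _ _ (hV10 _ (hVV (hw ⟨s, hs⟩)) _ (hVV (hv ⟨s, hs⟩)))
  have hA1 : (A.card : ℝ) ≤ E.card * Real.exp (δ * F.card) := by
    have h1 : (A.card : ℝ) ≤ 1 / (hm K).real G := by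
      rw [le_div_iff₀ hGpos]; exact hA
    refine h1.trans ?_
    rw [div_le_iff₀ hGpos]
    have h2 : Real.exp (-(δ * F.card)) * Real.exp (δ * F.card) = 1 := by
      rw [← Real.exp_add]; simp
    have h3 := mul_le_mul_of_nonneg_right hexpn (Real.exp_nonneg (δ * F.card))
    rw [h2] at h3
    linarith
  rw [hEc]
  have hE1 : (1 : ℝ) ≤ E.card := by exact_mod_cast hEpos
  rcases Nat.eq_zero_or_pos (cov (join (fun s => ⇑(γ s)) F 𝒰)) with h0 | h0
  · rw [h0]
    simp only [Nat.cast_zero, Real.log_zero]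
    have := Real.log_nonneg hE1
    positivity
  · have h1 : Real.log (cov (join (fun s => ⇑(γ s)) F 𝒰)) ≤
        Real.log (E.card * Real.exp (δ * F.card)) := by
      apply Real.log_le_log (by exact_mod_cast h0)
      refine le_trans ?_ hA1
      exact_mod_cast hcov
    rwa [Real.log_mul (by positivity) (Real.exp_pos _).ne', Real.log_exp] at h1

end Pool.Agent.Y316.BT
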