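import Mathlib
import Pool.Agent.Y316.BT.Hilb
import Pool.Agent.Y316.BT.Upper

set_option autoImplicit false
set_option linter.unusedSectionVars false

/-! Products of characters are close to a space of small dimension. -/

namespace Pool.Agent.Y316.BT

open MeasureTheory Filter Topology Set
open scoped InnerProductSpace

universe u v

variable {K : Type u} [CommGroup K] [TopologicalSpace K] [IsTopologicalGroup K]
  [CompactSpace K] [T2Space K] [MeasurableSpace K] [BorelSpace K]

/-- Square integrable functions. -/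
def MB (K : Type u) [CommGroup K] [TopologicalSpace K] [IsTopologicalGroup K]
    [CompactSpace K] [MeasurableSpace K] [BorelSpace K] : Submodule ℂ (K → ℂ) where
  carrier := {f | MemLp f 2 (hm K)}
  zero_mem' := MemLp.zero
  add_mem' := MemLp.add
  smul_mem' c _ hf := hf.const_smul c

/-- The class of a square integrable function. -/
noncomputable def TL : MB K →ₗ[ℂ] Lp ℂ 2 (hm K) where
  toFun f := MemLp.toLp f.1 f.2
  map_add' f g := MemLp.toLp_add f.2 g.2
  map_smul' c f := MemLp.toLp_const_smul c f.2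

lemma TL_norm_le (f : MB K) {C : ℝ} (hC : 0 ≤ C) (h : ∀ k, ‖f.1 k‖ ≤ C) : ‖TL f‖ ≤ C := by
  have h1 : ∀ᵐ x ∂(hm K), ‖(TL f : Lp ℂ 2 (hm K)) x‖ ≤ C := by
    have h2 : (TL f : Lp ℂ 2 (hm K)) =ᵐ[hm K] f.1 := MemLp.coeFn_toLp f.2
    filter_upwards [h2] with x hx
    rw [hx]
    exact h x
  have h3 := Lp.norm_le_of_ae_bound hC h1
  have h4 : measureUnivNNReal (hm K) = 1 := by
    have : (hm K) univ = 1 := measure_univ
    simp [measureUnivNNReal, this]
  rw [h4] at h3
  simpa using h3

lemma cont_mem (f : C(K, ℂ)) : (f : K → ℂ) ∈ MB K :=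
  f.continuous.memLp_of_hasCompactSupport (HasCompactSupport.of_compactSpace f)

lemma L_eq_TL (f : C(K, ℂ)) : L f = TL ⟨f, cont_mem f⟩ := by
  apply Lp.ext
  have h1 : (L f : Lp ℂ 2 (hm K)) =ᵐ[hm K] f := ContinuousMap.coeFn_toLp (hm K) f
  have h2 : (TL ⟨f, cont_mem f⟩ : Lp ℂ 2 (hm K)) =ᵐ[hm K] f := MemLp.coeFn_toLp (cont_mem f)
  exact h1.trans h2.symm

variable {ι : Type*} [Fintype ι] [DecidableEq ι]

/-- The elementary factors. -/
noncomputable def yf (γ : ι → (K →ₜ* K)) (b : K) (s : ι) : Option (K →ₜ* Circle) → C(K, ℂ)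
  | none => 1
  | some χ => (⟨fun k => (χ (γ s k) : ℂ) - (χ (γ s b) : ℂ), by fun_prop⟩ : C(K, ℂ))

theorem core (γ : ι → (K →ₜ* K)) (X : Finset (K →ₜ* Circle)) {ε : ℝ} (hε : 0 ≤ ε)
    {N : ℕ} (A : Fin N → Set K) (hAo : ∀ i, IsOpen (A i)) (hAc : ∀ k, ∃ i, k ∈ A i)
    (hosc : ∀ i, ∀ k ∈ A i, ∀ k' ∈ A i, ∀ s : ι, ∀ χ ∈ X,
      ‖(χ (γ s k) : ℂ) - (χ (γ s k') : ℂ)‖ ≤ ε)
    (E : Finset (K →ₜ* Circle))
    (hE : ∀ ψ ∈ E, ∃ x : ι → (K →ₜ* Circle), (∀ s, x s ∈ X) ∧ ψ = Phi γ x) (D : ℝ) :
    (E.card : ℝ) * (1 - (∑ T ∈ (Finset.univ : Finset (Finset ι)) with D < (T.card : ℝ),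
        ε ^ T.card) ^ 2) ≤
      (N : ℝ) * (((Fintype.piFinset (fun _ : ι => X.insertNone)).filter
        (fun φ => ((Finset.univ.filter (fun s => φ s ≠ none)).card : ℝ) ≤ D)).card : ℝ) := by
  classical
  set η : ℝ := ∑ T ∈ (Finset.univ : Finset (Finset ι)) with D < (T.card : ℝ), ε ^ T.card with hη
  have hη0 : 0 ≤ η := Finset.sum_nonneg fun T _ => by positivity
  -- base points
  have hbase : ∀ i : Fin N, ∃ b : K, (A i).Nonempty → b ∈ A i := by
    intro i
    by_cases h : (A i).Nonempty
    · exact ⟨h.some, fun _ => h.some_mem⟩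
    · exact ⟨1, fun h' => absurd h' h⟩
  choose b hb using hbase
  -- disjoint pieces
  let B : Fin N → Set K := fun i => A i \ ⋃ j : {j : Fin N // j < i}, A j
  have hBA : ∀ i, B i ⊆ A i := fun i => diff_subset
  have hBm : ∀ i, MeasurableSet (B i) := fun i =>
    (hAo i).measurableSet.diff (isOpen_iUnion fun j => hAo _).measurableSet
  have hBc : ∀ k, ∃ i, k ∈ B i ∧ ∀ j, j ≠ i → k ∉ B j := by
    intro k
    obtain ⟨i0, hi0⟩ := hAc k
    have hne : (Finset.univ.filter (fun i => k ∈ A i)).Nonempty := ⟨i0, by simp [hi0]⟩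
    set i := (Finset.univ.filter (fun i => k ∈ A i)).min' hne with hi
    have hiA : k ∈ A i := by
      have := Finset.min'_mem _ hne
      rw [← hi] at this
      simpa using this
    have hmin : ∀ j, k ∈ A j → i ≤ j := by
      intro j hj
      exact Finset.min'_le _ _ (by simp [hj])
    refine ⟨i, ⟨hiA, ?_⟩, ?_⟩
    · rw [mem_iUnion]
      rintro ⟨⟨j, hj⟩, hkj⟩
      exact absurd (hmin j hkj) (not_le.2 hj)
    · intro j hji hkj
      have h1 := hmin j hkj.1
      apply hkj.2
      rw [mem_iUnion]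
      exact ⟨⟨i, lt_of_le_of_ne h1 (Ne.symm hji)⟩, hiA⟩
  -- the spanning functions
  let w : Fin N × (ι → Option (K →ₜ* Circle)) → K → ℂ := fun p =>
    (B p.1).indicator (fun k => (∏ s, yf γ (b p.1) s (p.2 s)) k)
  have hw : ∀ p, w p ∈ MB K := by
    intro p
    have h1 : ((∏ s, yf γ (b p.1) s (p.2 s) : C(K, ℂ)) : K → ℂ) ∈ MB K := cont_mem _
    exact MemLp.indicator (hBm p.1) h1
  set J : Finset (Fin N × (ι → Option (K →ₜ* Circle))) :=
    Finset.univ ×ˢ ((Fintype.piFinset (fun _ : ι => X.insertNone)).filter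
        (fun φ => ((Finset.univ.filter (fun s => φ s ≠ none)).card : ℝ) ≤ D)) with hJ
  have hmain := dim_bound (L_orth (K := K)) E J (fun p => TL ⟨w p, hw p⟩) (η := η) (by
    intro ψ hψ
    obtain ⟨x, hx, hψx⟩ := hE ψ hψ
    -- coefficients and index functions
    let φT : Finset ι → ι → Option (K →ₜ* Circle) := fun T s => if s ∈ T then some (x s) else none
    let cT : Fin N → Finset ι → ℂ := fun i T =>
      ∏ s ∈ Finset.univ \ T, (x s (γ s (b i)) : ℂ)
    let G : MB K := ∑ i : Fin N, ∑ T ∈ (Finset.univ : Finset (Finset ι)) with ¬ D < (T.card : ℝ),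
      cT i T • (⟨w (i, φT T), hw _⟩ : MB K)
    refine ⟨TL G, ?_, ?_⟩
    · simp only [G, map_sum, map_smul]
      refine Submodule.sum_mem _ fun i _ => Submodule.sum_mem _ fun T hT => ?_
      refine Submodule.smul_mem _ _ (Submodule.subset_span ⟨(i, φT T), ?_, rfl⟩)
      rw [Finset.mem_filter] at hT
      rw [Finset.mem_coe, hJ, Finset.mem_product, Finset.mem_filter, Fintype.mem_piFinset]
      refine ⟨Finset.mem_univ _, ?_, ?_⟩
      · intro s
        simp only [φT]
        split_ifs
        · exact Finset.some_mem_insertNone.2 (hx s)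
        · exact Finset.none_mem_insertNone
      · have h1 : (Finset.univ.filter (fun s => φT T s ≠ none)) = T := by
          ext s
          simp [φT]
        simp only
        rw [h1]
        exact not_lt.1 hT.2
    · rw [L_eq_TL, ← map_sub]
      apply TL_norm_le _ hη0
      intro k
      obtain ⟨i, hi, hij⟩ := hBc k
      have hAi : (A i).Nonempty := ⟨k, hBA i hi⟩
      have hbi := hb i hAi
      -- evaluate `G`
      have hG : G.1 k = ∑ T ∈ (Finset.univ : Finset (Finset ι)) with ¬ D < (T.card : ℝ),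
          cT i T * ∏ s ∈ T, ((x s (γ s k) : ℂ) - (x s (γ s (b i)) : ℂ)) := by
        have h1 : G.1 = ∑ i : Fin N, ∑ T ∈ (Finset.univ : Finset (Finset ι)) with
            ¬ D < (T.card : ℝ), cT i T • w (i, φT T) := by
          simp only [G, Submodule.coe_sum, Submodule.coe_smul]
        rw [h1, Finset.sum_apply, Finset.sum_eq_single i]
        · rw [Finset.sum_apply]
          apply Finset.sum_congr rfl
          intro T _
          rw [Pi.smul_apply, smul_eq_mul]
          congr 1
          simp only [w]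
          rw [indicator_of_mem hi, ContinuousMap.coe_prod, Finset.prod_apply]
          rw [← Finset.prod_subset (Finset.subset_univ T)]
          · apply Finset.prod_congr rfl
            intro s hs
            simp only [φT, if_pos hs]
            rfl
          · intro s _ hs
            simp only [φT, if_neg hs]
            rfl
        · intro j _ hji
          rw [Finset.sum_apply]
          apply Finset.sum_eq_zero
          intro T _
          rw [Pi.smul_apply, smul_eq_mul]
          simp only [w]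
          rw [indicator_of_notMem (hij j hji), mul_zero]
        · intro h; exact absurd (Finset.mem_univ i) h
      have hψk : cf ψ k = ∑ T ∈ (Finset.univ : Finset (Finset ι)),
          cT i T * ∏ s ∈ T, ((x s (γ s k) : ℂ) - (x s (γ s (b i)) : ℂ)) := by
        rw [cf_apply, hψx, Phi_apply]
        have h1 : ∀ s, (x s (γ s k) : ℂ) =
            ((x s (γ s k) : ℂ) - (x s (γ s (b i)) : ℂ)) + (x s (γ s (b i)) : ℂ) := fun s => by ring
        rw [Finset.prod_congr rfl (fun s _ => h1 s), Finset.prod_add]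
        rw [Finset.powerset_univ]
        apply Finset.sum_congr rfl
        intro T _
        rw [mul_comm]
      have hdiff : cf ψ k - G.1 k = ∑ T ∈ (Finset.univ : Finset (Finset ι)) with D < (T.card : ℝ),
          cT i T * ∏ s ∈ T, ((x s (γ s k) : ℂ) - (x s (γ s (b i)) : ℂ)) := by
        rw [hG, hψk, ← Finset.sum_filter_add_sum_filter_not Finset.univ
          (fun T : Finset ι => D < (T.card : ℝ))]
        ring
      change ‖cf ψ k - G.1 k‖ ≤ η
      rw [hdiff]
      refine (norm_sum_le _ _).trans (Finset.sum_le_sum fun T _ => ?_)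
      rw [norm_mul, norm_prod, norm_prod]
      have h1 : ∏ s ∈ Finset.univ \ T, ‖(x s (γ s (b i)) : ℂ)‖ = 1 := by
        apply Finset.prod_eq_one
        intro s _
        exact Circle.norm_coe _
      rw [h1, one_mul]
      rw [← Finset.prod_const]
      apply Finset.prod_le_prod
      · intro s _; exact norm_nonneg _
      · intro s _
        exact hosc i k (hBA i hi) (b i) hbi s (x s) (hx s))
  refine hmain.trans (le_of_eq ?_)
  rw [hJ, Finset.card_product]
  simp

end Pool.Agent.Y316.BT
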