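import Mathlib
import Pool.Agent.Y316.BT.Core

set_option autoImplicit false
set_option linter.unusedSectionVars false

/-! Lower bound for covering numbers by the size of trajectories. -/

namespace Pool.Agent.Y316.BT

open MeasureTheory Filter Topology Set

universe u v

lemma count_le {ι C : Type*} [Fintype ι] [DecidableEq ι] (X : Finset C) {β : ℝ} (hβ : 0 ≤ β)
    (D : ℝ) [DecidablePred fun φ : ι → Option C =>
      ((Finset.univ.filter (fun s => φ s ≠ none)).card : ℝ) ≤ D] :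
    (((Fintype.piFinset (fun _ : ι => X.insertNone)).filter
        (fun φ => ((Finset.univ.filter (fun s => φ s ≠ none)).card : ℝ) ≤ D)).card : ℝ) ≤
      Real.exp (β * D) * (1 + X.card * Real.exp (-β)) ^ Fintype.card ι := by
  classical
  let g : Option C → ℝ := fun o => if o ≠ none then Real.exp (-β) else 1
  have hg : ∀ o, 0 ≤ g o := by
    intro o
    simp only [g]
    split_ifs
    · exact (Real.exp_pos _).le
    · exact zero_le_one
  have h1 : (1 + X.card * Real.exp (-β)) ^ Fintype.card ι =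
      ∑ φ ∈ Fintype.piFinset (fun _ : ι => X.insertNone), ∏ s, g (φ s) := by
    rw [← Finset.prod_univ_sum, Finset.prod_const, Finset.card_univ, Finset.sum_insertNone]
    simp [g]
  rw [h1, Finset.mul_sum]
  have h2 : (((Fintype.piFinset (fun _ : ι => X.insertNone)).filter
        (fun φ => ((Finset.univ.filter (fun s => φ s ≠ none)).card : ℝ) ≤ D)).card : ℝ) =
      ∑ φ ∈ (Fintype.piFinset (fun _ : ι => X.insertNone)).filter
        (fun φ => ((Finset.univ.filter (fun s => φ s ≠ none)).card : ℝ) ≤ D), (1 : ℝ) := by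
    simp
  rw [h2]
  refine le_trans (Finset.sum_le_sum (g := fun φ => Real.exp (β * D) * ∏ s, g (φ s)) ?_)
    (Finset.sum_le_sum_of_subset_of_nonneg (Finset.filter_subset _ _) ?_)
  · intro φ hφ
    rw [Finset.mem_filter] at hφ
    have h3 : ∏ s, g (φ s) =
        Real.exp (-β * ((Finset.univ.filter (fun s => φ s ≠ none)).card : ℝ)) := by
      simp only [g]
      rw [Finset.prod_ite, Finset.prod_const, Finset.prod_const_one, mul_one, ← Real.exp_nat_mul]
      congr 1
      ring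
    rw [h3, ← Real.exp_add]
    apply Real.one_le_exp
    have := mul_le_mul_of_nonneg_left hφ.2 hβ
    linarith
  · intro φ _ _
    exact mul_nonneg (Real.exp_pos _).le (Finset.prod_nonneg fun s _ => hg _)

lemma tail_le {ι : Type*} [Fintype ι] [DecidableEq ι] {b : ℝ} (hb : 0 ≤ b) (D : ℝ) :
    ∑ T ∈ (Finset.univ : Finset (Finset ι)) with D < (T.card : ℝ), (Real.exp (-b)) ^ T.card ≤
      Real.exp (-(b * D)) * 2 ^ Fintype.card ι := by
  classical
  have h1 : (2 : ℝ) ^ Fintype.card ι = ∑ T ∈ (Finset.univ : Finset (Finset ι)), (1 : ℝ) := by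
    simp
  rw [h1, Finset.mul_sum]
  refine le_trans (Finset.sum_le_sum (g := fun _ => Real.exp (-(b * D)) * 1) ?_)
    (Finset.sum_le_sum_of_subset_of_nonneg (Finset.filter_subset _ _) ?_)
  · intro T hT
    rw [Finset.mem_filter] at hT
    rw [mul_one, ← Real.exp_nat_mul]
    apply Real.exp_le_exp.2
    have := mul_le_mul_of_nonneg_left hT.2.le hb
    linarith
  · intro T _ _
    positivity

variable {K : Type u} [CommGroup K] [TopologicalSpace K] [IsTopologicalGroup K]
  [CompactSpace K] [T2Space K]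

lemma exists_fine_cover (X : Finset (K →ₜ* Circle)) {ε : ℝ} (hε : 0 < ε) :
    ∃ 𝒰 ∈ OpenCover K, ∀ U ∈ 𝒰, ∀ k ∈ U, ∀ k' ∈ U, ∀ χ ∈ X,
      ‖(χ k : ℂ) - (χ k' : ℂ)‖ ≤ ε := by
  classical
  let O : K → Set K := fun a => {k | ∀ χ ∈ X, ‖(χ k : ℂ) - (χ a : ℂ)‖ < ε / 2}
  have hOo : ∀ a, IsOpen (O a) := by
    intro a
    have : O a = ⋂ χ ∈ X, {k | ‖(χ k : ℂ) - (χ a : ℂ)‖ < ε / 2} := by
      ext k
      simp [O]
    rw [this]
    apply isOpen_biInter_finset
    intro χ _
    exact isOpen_lt (by fun_prop) continuous_const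
  have hOm : ∀ a, a ∈ O a := by
    intro a χ _
    simpa using hε
  obtain ⟨t, ht⟩ := CompactSpace.elim_nhds_subcover O fun a => (hOo a).mem_nhds (hOm a)
  refine ⟨O '' (t : Set K), ⟨t.finite_toSet.image O, ?_, ?_⟩, ?_⟩
  · rintro U ⟨a, -, rfl⟩
    exact hOo a
  · rw [eq_univ_iff_forall]
    intro k
    have hk : k ∈ ⋃ x ∈ t, O x := by rw [ht]; trivial
    simp only [mem_iUnion] at hk
    obtain ⟨a, ha, hka⟩ := hk
    exact ⟨O a, ⟨a, ha, rfl⟩, hka⟩
  · rintro U ⟨a, -, rfl⟩ k hk k' hk' χ hχ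
    have h1 := hk χ hχ
    have h2 := hk' χ hχ
    have h3 : (χ k : ℂ) - (χ k' : ℂ) = ((χ k : ℂ) - (χ a : ℂ)) - ((χ k' : ℂ) - (χ a : ℂ)) := by
      ring
    rw [h3]
    refine (norm_sub_le _ _).trans ?_
    linarith

lemma join_finite {S : Type v} (γ : S → K → K) (F : Finset S) {𝒰 : Set (Set K)}
    (h𝒰 : 𝒰.Finite) : (join γ F 𝒰).Finite := by
  classical
  have : (join γ F 𝒰) ⊆ (fun V : F → Set K => ⋂ s : F, γ s ⁻¹' V s) ''
      (Set.pi univ fun _ => 𝒰) := by
    rintro W ⟨V, hV, rfl⟩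
    refine ⟨fun s => V s, fun s _ => hV s s.2, ?_⟩
    ext k
    simp
  exact ((Set.Finite.pi fun _ => h𝒰).image _).subset this

lemma exists_min_cover {S : Type v} (γ : S → K → K) (F : Finset S) {𝒰 : Set (Set K)}
    (h𝒰 : 𝒰.Finite) (hc : ⋃₀ 𝒰 = univ) :
    ∃ t : Finset (Set K), (t : Set (Set K)) ⊆ join γ F 𝒰 ∧ ⋃₀ (t : Set (Set K)) = univ ∧
      t.card = cov (join γ F 𝒰) := by
  classical
  apply Nat.sInf_mem (s := {n | ∃ t : Finset (Set K), (t : Set (Set K)) ⊆ join γ F 𝒰 ∧
    ⋃₀ (t : Set (Set K)) = Set.univ ∧ t.card = n})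
  refine ⟨_, (join_finite γ F h𝒰).toFinset, ?_, ?_, rfl⟩
  · rw [Set.Finite.coe_toFinset]
  · rw [Set.Finite.coe_toFinset, eq_univ_iff_forall]
    intro k
    have h1 : ∀ x : K, ∃ U ∈ 𝒰, x ∈ U := by
      intro x
      have : x ∈ ⋃₀ 𝒰 := by rw [hc]; trivial
      exact this
    choose U hU hxU using h1
    refine ⟨⋂ s ∈ F, γ s ⁻¹' U (γ s k), ⟨fun s => U (γ s k), fun s _ => hU _, rfl⟩, ?_⟩
    simp only [mem_iInter]
    intro s _
    exact hxU _

/-- Finite level lower bound for covering numbers. -/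
theorem lower {X : Set (K →ₜ* Circle)} (hX : X.Finite) (hXne : X.Nonempty) {δ : ℝ}
    (hδ : 0 < δ) :
    ∃ 𝒰 ∈ OpenCover K, ∀ (S : Type v) (γ : S → (K →ₜ* K)) (F : Finset S), F.Nonempty →
      Real.log ((traj γ F X).ncard) ≤
        Real.log (cov (join (fun s => ⇑(γ s)) F 𝒰)) + δ * F.card := by
  classical
  let _ : MeasurableSpace K := borel K
  have _ : BorelSpace K := ⟨rfl⟩
  -- constants
  set m : ℝ := (hX.toFinset.card : ℝ) with hm'
  have hm0 : 0 ≤ m := Nat.cast_nonneg _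
  set β : ℝ := Real.log (1 + 8 * m / δ) with hβ
  have h1m : 1 ≤ 1 + 8 * m / δ := by
    have : 0 ≤ 8 * m / δ := by positivity
    linarith
  have hβ0 : 0 ≤ β := Real.log_nonneg h1m
  have hmβ : m * Real.exp (-β) ≤ δ / 8 := by
    rw [hβ, Real.exp_neg, Real.exp_log (by linarith), ← div_eq_mul_inv,
      div_le_iff₀ (by linarith)]
    field_simp
    linarith
  set α : ℝ := δ / (8 * (β + 1)) with hα
  have hα0 : 0 < α := by positivity
  have hβα : β * α ≤ δ / 8 := by
    rw [hα, ← mul_div_assoc, div_le_iff₀ (by positivity)]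
    nlinarith
  set κ : ℝ := 1 - Real.exp (-(δ / 2)) with hκ
  have hκe : Real.exp (-(δ / 2)) < 1 := by
    rw [Real.exp_lt_one_iff]; linarith
  have hκ0 : 0 < κ := by linarith
  have hκ1 : κ < 1 := by
    have := Real.exp_pos (-(δ / 2))
    linarith
  have hlogκ : Real.log κ < 0 := Real.log_neg hκ0 hκ1
  set b : ℝ := (1 - Real.log κ) / α with hb
  have hb0 : 0 ≤ b := by
    apply div_nonneg _ hα0.le
    linarith
  have hbα : b * α = 1 - Real.log κ := by
    rw [hb, div_mul_cancel₀ _ hα0.ne']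
  obtain ⟨𝒰, h𝒰, hfine⟩ := exists_fine_cover hX.toFinset (Real.exp_pos (-b))
  refine ⟨𝒰, h𝒰, fun S γ F hF => ?_⟩
  set n : ℕ := F.card with hn
  have hn1 : 1 ≤ n := Finset.card_pos.2 hF
  have hn1' : (1 : ℝ) ≤ n := by exact_mod_cast hn1
  obtain ⟨t, htj, htc, htn⟩ := exists_min_cover (fun s => ⇑(γ s)) F h𝒰.1 h𝒰.2.2
  set E : Finset (K →ₜ* Circle) := (traj_finite γ F hX).toFinset with hE
  have hEc : (traj γ F X).ncard = E.card := by
    rw [hE]; exact Set.ncard_eq_toFinset_card _ _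
  have hEpos : 0 < E.card := by
    rw [← hEc]
    exact traj_ncard_pos γ F hX hXne
  let e := t.equivFin
  let A : Fin t.card → Set K := fun i => (e.symm i).1
  have hAj : ∀ i, ∃ V : S → Set K, (∀ s ∈ F, V s ∈ 𝒰) ∧ A i = ⋂ s ∈ F, γ s ⁻¹' V s :=
    fun i => htj (e.symm i).2
  have hAo : ∀ i, IsOpen (A i) := by
    intro i
    obtain ⟨V, hV, hAV⟩ := hAj i
    rw [hAV]
    apply isOpen_biInter_finset
    intro s hs
    exact (h𝒰.2.1 _ (hV s hs)).preimage (γ s).continuous_toFun
  have hAc : ∀ k, ∃ i, k ∈ A i := by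
    intro k
    have hk : k ∈ ⋃₀ (t : Set (Set K)) := by rw [htc]; trivial
    obtain ⟨W, hW, hkW⟩ := hk
    refine ⟨e ⟨W, hW⟩, ?_⟩
    simp only [A, Equiv.symm_apply_apply]
    exact hkW
  have hosc : ∀ i, ∀ k ∈ A i, ∀ k' ∈ A i, ∀ s : F, ∀ χ ∈ hX.toFinset,
      ‖(χ (γ s k) : ℂ) - (χ (γ s k') : ℂ)‖ ≤ Real.exp (-b) := by
    intro i k hk k' hk' s χ hχ
    obtain ⟨V, hV, hAV⟩ := hAj i
    rw [hAV] at hk hk'
    simp only [mem_iInter] at hk hk'
    exact hfine (V s) (hV s s.2) _ (hk s s.2) _ (hk' s s.2) χ hχ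
  have hcore := core (fun s : F => γ s) hX.toFinset (Real.exp_pos (-b)).le A hAo hAc hosc E (by
    intro ψ hψ
    rw [hE, Set.Finite.mem_toFinset] at hψ
    obtain ⟨x, hx, hψx⟩ := hψ
    refine ⟨fun s => x s, fun s => hX.mem_toFinset.2 (hx s s.2), ?_⟩
    rw [hψx, Phi]
    exact (Finset.prod_coe_sort F fun s => (x s).comp (γ s)).symm) (α * n)
  have htail := tail_le (ι := F) hb0 (α * n)
  set η : ℝ := ∑ T ∈ (Finset.univ : Finset (Finset F)) with α * (n : ℝ) < (T.card : ℝ),
    (Real.exp (-b)) ^ T.card with hη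
  have hη0 : 0 ≤ η := Finset.sum_nonneg fun T _ => by positivity
  have hηκ : η ≤ κ := by
    refine htail.trans ?_
    rw [Fintype.card_coe]
    have h2 : (2 : ℝ) ^ F.card ≤ Real.exp 1 ^ F.card := by
      apply pow_le_pow_left₀ (by norm_num)
      have := Real.add_one_le_exp (1 : ℝ)
      linarith
    calc Real.exp (-(b * (α * n))) * 2 ^ F.card
        ≤ Real.exp (-(b * (α * n))) * Real.exp 1 ^ F.card :=
          mul_le_mul_of_nonneg_left h2 (Real.exp_pos _).le
      _ = Real.exp (n * Real.log κ) := by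
          rw [← Real.exp_nat_mul, ← Real.exp_add]
          congr 1
          have : b * (α * n) = (1 - Real.log κ) * n := by rw [← hbα]; ring
          rw [this, ← hn]
          ring
      _ ≤ Real.exp (Real.log κ) := by
          apply Real.exp_le_exp.2
          nlinarith
      _ = κ := Real.exp_log hκ0
  have hη2 : Real.exp (-(δ / 2)) ≤ 1 - η ^ 2 := by
    have : η ^ 2 ≤ κ := by nlinarith
    linarith
  have hcount := count_le (ι := F) hX.toFinset hβ0 (α * n)
  have hcount2 : (((Fintype.piFinset (fun _ : F => hX.toFinset.insertNone)).filter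
        (fun φ => ((Finset.univ.filter (fun s => φ s ≠ none)).card : ℝ) ≤ α * n)).card : ℝ) ≤
      Real.exp (δ * n / 4) := by
    refine hcount.trans ?_
    rw [Fintype.card_coe]
    have h2 : (1 + m * Real.exp (-β)) ^ F.card ≤ Real.exp (δ / 8) ^ F.card := by
      apply pow_le_pow_left₀ (by positivity)
      have := Real.add_one_le_exp (δ / 8)
      linarith
    calc Real.exp (β * (α * n)) * (1 + m * Real.exp (-β)) ^ F.card
        ≤ Real.exp (δ / 8 * n) * Real.exp (δ / 8) ^ F.card := by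
          apply mul_le_mul _ h2 (by positivity) (Real.exp_pos _).le
          apply Real.exp_le_exp.2
          have := mul_le_mul_of_nonneg_right hβα (Nat.cast_nonneg n)
          linarith
      _ = Real.exp (δ * n / 4) := by
          rw [← Real.exp_nat_mul, ← Real.exp_add]
          congr 1
          rw [← hn]
          ring
  -- conclusion
  have hcov1 : 1 ≤ t.card := by
    obtain ⟨i, -⟩ := hAc 1
    exact Nat.one_le_iff_ne_zero.2 (by
      intro h0
      have := i.2
      omega)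
  have hfinal : (E.card : ℝ) ≤ (t.card : ℝ) * Real.exp (δ * n) := by
    have hE0 : (0 : ℝ) ≤ E.card := Nat.cast_nonneg _
    have h2 : (E.card : ℝ) * Real.exp (-(δ / 2)) ≤ (t.card : ℝ) * Real.exp (δ * n / 4) := by
      calc (E.card : ℝ) * Real.exp (-(δ / 2)) ≤ (E.card : ℝ) * (1 - η ^ 2) :=
            mul_le_mul_of_nonneg_left hη2 hE0
        _ ≤ _ := hcore
        _ ≤ (t.card : ℝ) * Real.exp (δ * n / 4) :=
            mul_le_mul_of_nonneg_left hcount2 (Nat.cast_nonneg _)
    have h3 : (E.card : ℝ) = (E.card : ℝ) * Real.exp (-(δ / 2)) * Real.exp (δ / 2) := by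
      rw [mul_assoc, ← Real.exp_add]
      simp
    rw [h3]
    calc (E.card : ℝ) * Real.exp (-(δ / 2)) * Real.exp (δ / 2)
        ≤ (t.card : ℝ) * Real.exp (δ * n / 4) * Real.exp (δ / 2) :=
          mul_le_mul_of_nonneg_right h2 (Real.exp_pos _).le
      _ = (t.card : ℝ) * Real.exp (δ * n / 4 + δ / 2) := by rw [mul_assoc, ← Real.exp_add]
      _ ≤ (t.card : ℝ) * Real.exp (δ * n) := by
          apply mul_le_mul_of_nonneg_left _ (Nat.cast_nonneg _)
          apply Real.exp_le_exp.2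
          nlinarith
  rw [hEc, ← htn]
  have h4 := Real.log_le_log (by exact_mod_cast hEpos) hfinal
  rwa [Real.log_mul (by exact_mod_cast (by omega : t.card ≠ 0)) (Real.exp_pos _).ne',
    Real.log_exp] at h4

end Pool.Agent.Y316.BT
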