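import Mathlib
import Pool.Agent.Y316.BT.Lower

set_option autoImplicit false

/-! The bridge theorem along arbitrary filters of finite sets. -/

namespace Pool.Agent.Y316.BT

open Filter Topology Set

universe u v w

lemma limsup_le_iSup {B : Type*} {ι : Type*} (l : Filter ι) (a : ι → ℝ) (v : B → ι → ℝ)
    (h : ∀ δ : ℝ, 0 < δ → ∃ b, ∀ i, a i ≤ v b i + δ) :
    limsup (fun i => (a i : EReal)) l ≤ ⨆ b, limsup (fun i => (v b i : EReal)) l := by
  by_contra hcon
  rw [not_le] at hcon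
  obtain ⟨r, hr1, hr2⟩ := EReal.lt_iff_exists_real_btwn.1 hcon
  obtain ⟨r', hr1', hr2'⟩ := EReal.lt_iff_exists_real_btwn.1 hr1
  have hrr : r' < r := by exact_mod_cast hr2'
  obtain ⟨b, hb⟩ := h (r - r') (by linarith)
  have h1 : limsup (fun i => (v b i : EReal)) l < r' :=
    (le_iSup (fun b => limsup (fun i => (v b i : EReal)) l) b).trans_lt hr1'
  have h2 := eventually_lt_of_limsup_lt h1
  have h3 : limsup (fun i => (a i : EReal)) l ≤ r := by
    apply limsup_le_of_le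
    · isBoundedDefault
    filter_upwards [h2] with i hi
    have hi' : v b i < r' := by exact_mod_cast hi
    have := hb i
    exact_mod_cast (by linarith : a i ≤ r)
  exact absurd hr2 (not_lt.2 h3)

lemma liminf_le_iSup {B : Type*} {ι : Type*} (l : Filter ι) (a : ι → ℝ) (v : B → ι → ℝ)
    (h : ∀ δ : ℝ, 0 < δ → ∃ b, ∀ i, a i ≤ v b i + δ) :
    liminf (fun i => (a i : EReal)) l ≤ ⨆ b, liminf (fun i => (v b i : EReal)) l := by
  by_contra hcon
  rw [not_le] at hcon
  obtain ⟨r, hr1, hr2⟩ := EReal.lt_iff_exists_real_btwn.1 hcon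
  obtain ⟨r', hr1', hr2'⟩ := EReal.lt_iff_exists_real_btwn.1 hr1
  have hrr : r' < r := by exact_mod_cast hr2'
  obtain ⟨b, hb⟩ := h (r - r') (by linarith)
  have h1 : liminf (fun i => (v b i : EReal)) l < r' :=
    (le_iSup (fun b => liminf (fun i => (v b i : EReal)) l) b).trans_lt hr1'
  have h2 := frequently_lt_of_liminf_lt (by isBoundedDefault) h1
  have h3 : liminf (fun i => (a i : EReal)) l ≤ r := by
    apply liminf_le_of_frequently_le
    · refine h2.mono fun i hi => ?_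
      have hi' : v b i < r' := by exact_mod_cast hi
      have := hb i
      exact_mod_cast (by linarith : a i ≤ r)
    · isBoundedDefault
  exact absurd hr2 (not_lt.2 h3)

variable {K : Type u} [CommGroup K] [TopologicalSpace K] [IsTopologicalGroup K]
  [CompactSpace K] [T2Space K]

lemma div_bound {a b δ n : ℝ} (hn : 0 < n) (h : a ≤ b + δ * n) : a / n ≤ b / n + δ := by
  rw [div_add' _ _ _ hn.ne']
  exact div_le_div_of_nonneg_right h hn.le

theorem bridge {S : Type v} (γ : S → (K →ₜ* K)) {ι : Type w} (l : Filter ι)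
    (F : ι → Finset S) (hF : ∀ i, (F i).Nonempty) :
    (⨆ 𝒰 : OpenCover K, limsup (fun i => topRatio (fun s => ⇑(γ s)) 𝒰 (F i)) l) =
        (⨆ X : {X : Set (K →ₜ* Circle) // X.Finite ∧ X.Nonempty},
          limsup (fun i => algRatio γ X (F i)) l) ∧
    (⨆ 𝒰 : OpenCover K, liminf (fun i => topRatio (fun s => ⇑(γ s)) 𝒰 (F i)) l) =
        (⨆ X : {X : Set (K →ₜ* Circle) // X.Finite ∧ X.Nonempty},
          liminf (fun i => algRatio γ X (F i)) l) := by
  have hpos : ∀ i, (0 : ℝ) < (F i).card := fun i => by exact_mod_cast Finset.card_pos.2 (hF i)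
  have hU : ∀ 𝒰 : OpenCover K, ∀ δ : ℝ, 0 < δ →
      ∃ X : {X : Set (K →ₜ* Circle) // X.Finite ∧ X.Nonempty}, ∀ i,
        Real.log (cov (join (fun s => ⇑(γ s)) (F i) 𝒰)) / (F i).card ≤
          Real.log ((traj γ (F i) X).ncard) / (F i).card + δ := by
    intro 𝒰 δ hδ
    obtain ⟨X, hX1, hX2, hX⟩ := upper.{u, v} 𝒰.2 hδ
    exact ⟨⟨X, hX1, hX2⟩, fun i => div_bound (hpos i) (hX S γ (F i))⟩
  have hL : ∀ X : {X : Set (K →ₜ* Circle) // X.Finite ∧ X.Nonempty}, ∀ δ : ℝ, 0 < δ →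
      ∃ 𝒰 : OpenCover K, ∀ i,
        Real.log ((traj γ (F i) X).ncard) / (F i).card ≤
          Real.log (cov (join (fun s => ⇑(γ s)) (F i) 𝒰)) / (F i).card + δ := by
    intro X δ hδ
    obtain ⟨𝒰, h𝒰, h⟩ := lower.{u, v} X.2.1 X.2.2 hδ
    exact ⟨⟨𝒰, h𝒰⟩, fun i => div_bound (hpos i) (h S γ (F i) (hF i))⟩
  refine ⟨le_antisymm ?_ ?_, le_antisymm ?_ ?_⟩
  · exact iSup_le fun 𝒰 => limsup_le_iSup l _
      (fun (X : {X : Set (K →ₜ* Circle) // X.Finite ∧ X.Nonempty}) i =>
        Real.log ((traj γ (F i) X).ncard) / (F i).card) (hU 𝒰)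
  · exact iSup_le fun X => limsup_le_iSup l _
      (fun (𝒰 : OpenCover K) i =>
        Real.log (cov (join (fun s => ⇑(γ s)) (F i) 𝒰)) / (F i).card) (hL X)
  · exact iSup_le fun 𝒰 => liminf_le_iSup l _
      (fun (X : {X : Set (K →ₜ* Circle) // X.Finite ∧ X.Nonempty}) i =>
        Real.log ((traj γ (F i) X).ncard) / (F i).card) (hU 𝒰)
  · exact iSup_le fun X => liminf_le_iSup l _
      (fun (𝒰 : OpenCover K) i =>
        Real.log (cov (join (fun s => ⇑(γ s)) (F i) 𝒰)) / (F i).card) (hL X)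

end Pool.Agent.Y316.BT
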